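import Pool.Agent.H80.MR.AsmB
import Pool.Agent.H80.MR.JOHN
import Pool.Agent.H80.MR.FORM
import Pool.Agent.H80.MR.HIL
import Pool.Agent.H80.MR.IRR
import Pool.Agent.H80.MR.ULIM
import Pool.Agent.H80.MR.LIMB
import Pool.Agent.H80.MR.BDD
import Pool.Agent.H80.MR.SEQ
import Pool.Agent.H80.MR.LOWA
import Pool.Agent.H80.MR.LOWB
import Pool.Agent.H80.MR.PW
import Pool.Agent.H80.MR.ULTRA
import Pool.Agent.H80.MR.SEP

/-!
# Banach-Mazur rotation problem: operators of finite rank on almost transitive spaces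

Let `E` be an infinite-dimensional real Banach space, of any density, whose isometries have dense orbits on the
unit sphere.  Either `E` is isometric to a Hilbert space, or for every `n` there is `c > 0` with
`‖1 - F‖ ≥ 1 + c ‖F‖` for all operators `F` of rank at most `n`.  In particular `E` is a Hilbert space if some
linear contraction `T ≠ 1` is a finite rank perturbation of the identity, equivalently, if some proper
subspace of finite codimension is the range of a norm-one projection.  There is a version which is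
uniform in `E`.

Proof.  See `Pool/Agent/H80/MR/Stm.lean` and `Stm2.lean`: let `1 - F` be a norm-one projection with a
finite-dimensional kernel on a transitive space (an ultraproduct).
For the John ellipsoid of a finite-dimensional subspace which is invariant under a conjugate `F_g` of `F` one has
`tr (F_g^T F_g) ≤ 2 rank F`.  No subspace is invariant under all `F_g`; so the ellipsoids, normalised on the range of `F`, converge
along an ultrafilter to an equivalent inner product.  Then the library theorem `CompactDichotomy` is applied to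
separable subspaces.
-/

set_option autoImplicit false

namespace Pool.Agent.Results.MP_cc72b1_an.FiniteRankGap

open Pool.Agent.H80.MR

/-- `E` is linearly isometric to a real Hilbert space. -/
def IsHilbert (E : Type) [NormedAddCommGroup E] [NormedSpace ℝ E] : Prop :=
  ∃ (H : Type) (_ : NormedAddCommGroup H) (_ : InnerProductSpace ℝ H) (_ : CompleteSpace H),
    Nonempty (E ≃ₗᵢ[ℝ] H)

/-- The norm of `E` is almost transitive: the group of surjective linear isometries has dense orbits on the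
unit sphere. -/
def AlmostTransitive (E : Type) [NormedAddCommGroup E] [NormedSpace ℝ E] : Prop :=
  ∀ x y : E, ‖x‖ = 1 → ‖y‖ = 1 → ∀ ε : ℝ, 0 < ε → ∃ T : E ≃ₗᵢ[ℝ] E, ‖T x - y‖ < ε

/-- `F` is an operator of rank at most `n`. -/
def RankLe {E : Type} [NormedAddCommGroup E] [NormedSpace ℝ E] (n : ℕ) (F : E →L[ℝ] E) : Prop :=
  FiniteDimensional ℝ (LinearMap.range (F : E →ₗ[ℝ] E)) ∧
    Module.finrank ℝ (LinearMap.range (F : E →ₗ[ℝ] E)) ≤ n

/-- `‖1 - F‖ ≥ 1 + c ‖F‖` for all operators `F` of rank at most `n`. -/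
def Gap (E : Type) [NormedAddCommGroup E] [NormedSpace ℝ E] (n : ℕ) (c : ℝ) : Prop :=
  ∀ F : E →L[ℝ] E, RankLe n F → 1 + c * ‖F‖ ≤ ‖(1 : E →L[ℝ] E) - F‖

/-- The parallelogram law holds in the unit ball up to `ε`. -/
def Parallelogram (E : Type) [NormedAddCommGroup E] [NormedSpace ℝ E] (ε : ℝ) : Prop :=
  ∀ x y : E, ‖x‖ ≤ 1 → ‖y‖ ≤ 1 →
    |‖x + y‖ ^ 2 + ‖x - y‖ ^ 2 - 2 * ‖x‖ ^ 2 - 2 * ‖y‖ ^ 2| ≤ ε

/-- There is a projection `P ≠ 1` of norm at most one with a finite-dimensional kernel. -/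
def HasProjection (E : Type) [NormedAddCommGroup E] [NormedSpace ℝ E] : Prop :=
  ∃ P : E →L[ℝ] E, P ≠ 1 ∧ (∀ x, P (P x) = P x) ∧ ‖P‖ ≤ 1 ∧
    FiniteDimensional ℝ (LinearMap.ker (P : E →ₗ[ℝ] E))

/-- There is a contraction `T ≠ 1` with `T - 1` of finite rank. -/
def HasContraction (E : Type) [NormedAddCommGroup E] [NormedSpace ℝ E] : Prop :=
  ∃ T : E →L[ℝ] E, T ≠ 1 ∧ ‖T‖ ≤ 1 ∧
    FiniteDimensional ℝ (LinearMap.range ((T - 1 : E →L[ℝ] E) : E →ₗ[ℝ] E))

/-- the projection of a Hilbert space along a line -/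
lemma exists_proj {E : Type} [NormedAddCommGroup E] [NormedSpace ℝ E]
    (hinf : ¬ FiniteDimensional ℝ E) (hE : IsHilbert E) :
    ∃ P : E →L[ℝ] E, P ≠ 1 ∧ (∀ x, P (P x) = P x) ∧ ‖P‖ ≤ 1 ∧
      LinearMap.ker (P : E →ₗ[ℝ] E) ≤ ⊤ ∧
      (∃ x, LinearMap.ker (P : E →ₗ[ℝ] E) ≤ Submodule.span ℝ {x}) := by
  obtain ⟨H, _, _, _, ⟨e⟩⟩ := hE
  have hnt : Nontrivial E := by
    by_contra h
    rw [not_nontrivial_iff_subsingleton] at h
    exact hinf inferInstance
  obtain ⟨x, hx⟩ : ∃ x : E, ‖x‖ = 1 := exists_norm_eq E zero_le_one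
  let S : Submodule ℝ H := ℝ ∙ (e x)
  let Q : H →L[ℝ] H := Sᗮ.starProjection
  let P : E →L[ℝ] E := (e.symm.toContinuousLinearEquiv : H →L[ℝ] E) ∘L Q ∘L
    (e.toContinuousLinearEquiv : E →L[ℝ] H)
  have hP : ∀ y, P y = e.symm (Q (e y)) := fun y => rfl
  have hQ : ∀ y : H, Q y = y - S.starProjection y := fun y =>
    Submodule.starProjection_orthogonal_val y
  have hQx : Q (e x) = 0 := by
    rw [hQ, Submodule.starProjection_eq_self_iff.2 (Submodule.mem_span_singleton_self _), sub_self]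
  have hQQ : ∀ y, Q (Q y) = Q y := fun y =>
    Submodule.starProjection_eq_self_iff.2 (Submodule.starProjection_apply_mem _ _)
  have hQn : ∀ y, ‖Q y‖ ≤ ‖y‖ := by
    intro y
    have h1 := Sᗮ.starProjection.le_opNorm y
    refine h1.trans ?_
    have := mul_le_mul_of_nonneg_right (Submodule.starProjection_norm_le Sᗮ) (norm_nonneg y)
    rwa [one_mul] at this
  refine ⟨P, ?_, ?_, ?_, le_top, x, ?_⟩
  · intro h
    have h1 : P x = x := by rw [h]; rfl
    rw [hP, hQx, map_zero] at h1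
    rw [← h1, norm_zero] at hx
    norm_num at hx
  · intro y
    rw [hP, hP, e.apply_symm_apply, hQQ]
  · refine ContinuousLinearMap.opNorm_le_bound _ zero_le_one fun y => ?_
    rw [hP, e.symm.norm_map, one_mul]
    refine (hQn _).trans ?_
    rw [e.norm_map]
  · intro y hy
    have h1 : P y = 0 := hy
    rw [hP] at h1
    have h2 : Q (e y) = 0 := by
      rw [← e.apply_symm_apply (Q (e y)), h1, map_zero]
    rw [hQ, sub_eq_zero] at h2
    have h3 : e y ∈ S := by
      rw [h2]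
      exact Submodule.starProjection_apply_mem _ _
    obtain ⟨c, hc⟩ := Submodule.mem_span_singleton.1 h3
    refine Submodule.mem_span_singleton.2 ⟨c, e.injective ?_⟩
    rw [map_smul, hc]

theorem result :
    -- (C) uniform version
    (∀ (n : ℕ) (ε : ℝ), 0 < ε → ∃ δ : ℝ, 0 < δ ∧
      ∀ (E : Type) [NormedAddCommGroup E] [NormedSpace ℝ E] [CompleteSpace E],
        ¬ FiniteDimensional ℝ E → AlmostTransitive E → ¬ Gap E n δ → Parallelogram E ε) ∧
    ∀ (E : Type) [NormedAddCommGroup E] [NormedSpace ℝ E] [CompleteSpace E],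
      ¬ FiniteDimensional ℝ E → AlmostTransitive E →
      -- (A) the dichotomy
      (¬ IsHilbert E ↔ ∀ n : ℕ, ∃ c : ℝ, 0 < c ∧ Gap E n c) ∧
      -- (B) norm-one projections and contractions
      [IsHilbert E, HasProjection E, HasContraction E].TFAE := by
  have hLIMB : S_LIMB := limb (form john) irr ulim
  have hSEQ : S_SEQ := seq irr bdd
  have hLOWA : S_LOWA := lowa irr hSEQ
  have hLOWB : S_LOWB := lowb irr bdd ulim hLOWA
  have hU := uniform hLIMB bdd hLOWB hil sep pw ultra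
  refine ⟨fun n ε hε => ?_, fun E _ _ _ hinf hAT => ?_⟩
  · obtain ⟨δ, hδ, h⟩ := hU n ε hε
    refine ⟨δ, hδ, fun E _ _ _ hinf hAT hg x y hx hy => ?_⟩
    unfold Gap at hg
    push Not at hg
    obtain ⟨F, hF, h1⟩ := hg
    exact h E hinf hAT F hF.1 hF.2 h1 x y hx hy
  have hA1 : (∃ n : ℕ, ∀ c : ℝ, 0 < c → ∃ F : E →L[ℝ] E, RankLe n F ∧
      ‖(1 : E →L[ℝ] E) - F‖ < 1 + c * ‖F‖) → IsHilbert E := by
    rintro ⟨n, hn⟩
    apply isHilb_of_para
    -- the unit ball first
    have hball : ∀ x y : E, ‖x‖ ≤ 1 → ‖y‖ ≤ 1 →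
        ‖x + y‖ ^ 2 + ‖x - y‖ ^ 2 - 2 * ‖x‖ ^ 2 - 2 * ‖y‖ ^ 2 = 0 := by
      intro x y hx hy
      by_contra hne
      have hpos : 0 < |‖x + y‖ ^ 2 + ‖x - y‖ ^ 2 - 2 * ‖x‖ ^ 2 - 2 * ‖y‖ ^ 2| := abs_pos.2 hne
      obtain ⟨δ, hδ, h⟩ := hU n _ (half_pos hpos)
      obtain ⟨F, hF, hF1⟩ := hn δ hδ
      have h2 := h E hinf hAT F hF.1 hF.2 hF1 x y hx hy
      linarith
    intro x y
    obtain ⟨r, hr⟩ : ∃ r : ℝ, r = ‖x‖ + ‖y‖ + 1 := ⟨_, rfl⟩
    have hr0 : 0 < r := by rw [hr]; positivity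
    have h1 := hball (r⁻¹ • x) (r⁻¹ • y)
      (by
        rw [norm_smul, norm_inv, Real.norm_of_nonneg hr0.le, inv_mul_le_iff₀ hr0, mul_one, hr]
        have := norm_nonneg y
        linarith)
      (by
        rw [norm_smul, norm_inv, Real.norm_of_nonneg hr0.le, inv_mul_le_iff₀ hr0, mul_one, hr]
        have := norm_nonneg x
        linarith)
    rw [← smul_add, ← smul_sub, norm_smul, norm_smul, norm_smul, norm_smul] at h1
    have hri : ‖r⁻¹‖ ≠ 0 := norm_ne_zero_iff.2 (inv_ne_zero hr0.ne')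
    have h2 : ‖r⁻¹‖ ^ 2 * (‖x + y‖ ^ 2 + ‖x - y‖ ^ 2 - 2 * ‖x‖ ^ 2 - 2 * ‖y‖ ^ 2) = 0 := by
      rw [← h1]
      ring
    rcases mul_eq_zero.1 h2 with h3 | h3
    · exact absurd h3 (pow_ne_zero 2 hri)
    · linarith
  -- a projection contradicts every gap
  have hgap : IsHilbert E → ∃ F : E →L[ℝ] E, RankLe 1 F ∧ F ≠ 0 ∧ ‖(1 : E →L[ℝ] E) - F‖ ≤ 1 := by
    intro hE
    obtain ⟨P, hP1, hP2, hP3, -, x, hx⟩ := exists_proj hinf hE
    have hle : LinearMap.range ((1 - P : E →L[ℝ] E) : E →ₗ[ℝ] E) ≤ Submodule.span ℝ {x} := by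
      rintro _ ⟨y, rfl⟩
      apply hx
      show P (y - P y) = 0
      rw [map_sub, hP2, sub_self]
    refine ⟨1 - P, ⟨Submodule.finiteDimensional_of_le hle,
      (Submodule.finrank_mono hle).trans (by
        have := finrank_span_le_card (R := ℝ) ({x} : Set E)
        simpa using this)⟩, ?_, ?_⟩
    · rw [sub_ne_zero]
      exact hP1.symm
    · rw [sub_sub_cancel]
      exact hP3
  have hA2 : ∀ (n : ℕ) (F : E →L[ℝ] E), RankLe n F → F ≠ 0 → ‖(1 : E →L[ℝ] E) - F‖ ≤ 1 →
      IsHilbert E := by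
    intro n F hF hF0 hF1
    refine hA1 ⟨n, fun c hc => ⟨F, hF, ?_⟩⟩
    have : 0 < c * ‖F‖ := mul_pos hc (norm_pos_iff.2 hF0)
    linarith
  refine ⟨⟨fun hE n => ?_, fun h hE => ?_⟩, ?_⟩
  · by_contra hcon
    unfold Gap at hcon
    push Not at hcon
    exact hE (hA1 ⟨n, fun c hc => by
      obtain ⟨F, hF, hF1⟩ := hcon c hc
      exact ⟨F, hF, hF1⟩⟩)
  · obtain ⟨F, hF, hF0, hF1⟩ := hgap hE
    obtain ⟨c, hc, h1⟩ := h 1
    have h2 := h1 F hF
    have : 0 < c * ‖F‖ := mul_pos hc (norm_pos_iff.2 hF0)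
    linarith
  · tfae_have 1 → 2 := by
      intro hE
      obtain ⟨P, hP1, hP2, hP3, -, x, hx⟩ := exists_proj hinf hE
      exact ⟨P, hP1, hP2, hP3, Submodule.finiteDimensional_of_le hx⟩
    tfae_have 2 → 3 := by
      rintro ⟨P, hP1, hP2, hP3, hP4⟩
      refine ⟨P, hP1, hP3, ?_⟩
      have hle : LinearMap.range ((P - 1 : E →L[ℝ] E) : E →ₗ[ℝ] E) ≤
          LinearMap.ker (P : E →ₗ[ℝ] E) := by
        rintro _ ⟨x, rfl⟩
        show P (P x - x) = 0
        rw [map_sub, hP2, sub_self]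
      exact Submodule.finiteDimensional_of_le hle
    tfae_have 3 → 1 := by
      rintro ⟨T, hT1, hT2, hT3⟩
      have hr : LinearMap.range ((1 - T : E →L[ℝ] E) : E →ₗ[ℝ] E) ≤
          LinearMap.range ((T - 1 : E →L[ℝ] E) : E →ₗ[ℝ] E) := by
        rintro _ ⟨x, rfl⟩
        exact ⟨-x, by
          show T (-x) - (-x) = x - T x
          rw [map_neg]
          abel⟩
      refine hA2 _ (1 - T) ⟨Submodule.finiteDimensional_of_le hr, le_rfl⟩ ?_ ?_
      · rw [sub_ne_zero]
        exact hT1.symm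
      · rw [sub_sub_cancel]
        exact hT2
    tfae_finish

end Pool.Agent.Results.MP_cc72b1_an.FiniteRankGap
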