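import Pool.Agent.H65.BM.Fin3
import Pool.Agent.H65.BM.Asm2
import Pool.Agent.H65.BM.J
import Pool.Agent.H65.BM.OPS
import Pool.Agent.H65.BM.CIS
import Pool.Agent.H65.BM.BAL
import Pool.Agent.H65.BM.U
import Pool.Agent.H65.BM.T1
import Pool.Agent.H65.BM.T2
import Pool.Agent.H65.BM.COT
import Pool.Agent.H65.BM.NULL
import Pool.Agent.H65.BM.POS
import Pool.Agent.H65.BM.EQ
import Pool.Agent.H65.BM.WALK
import Pool.Agent.H65.BM.M1
import Pool.Agent.H65.BM.M2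
import Pool.Agent.H65.BM.DAT
import Pool.Agent.H65.BM.DUS
import Pool.Agent.H65.BM.DUC
import Pool.Agent.H65.BM.DKS
import Pool.Agent.H65.BM.NORMKS
import Pool.Agent.H65.BM.AUER1
import Pool.Agent.H65.BM.FRE
import Pool.Agent.H65.BM.USZ
import Pool.Agent.H65.BM.GRO
import Pool.Agent.H65.BM.WKN
import Pool.Agent.H65.BM.SELF
import Pool.Agent.H65.BM.POW
import Pool.Agent.H65.BM.SEPD
import Pool.Agent.H65.BM.Asm4
import Pool.Agent.H65.BM.GEL
import Pool.Agent.H65.BM.OPC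
import Pool.Agent.H65.BM.CIC
import Pool.Agent.H65.BM.UC2
import Pool.Agent.H65.BM.T1C
import Pool.Agent.H65.BM.NULL2
import Pool.Agent.H65.BM.POS2
import Pool.Agent.H65.BM.CC
import Pool.Agent.H65.BM.NM
import Pool.Agent.H65.BM.CONP
import Pool.Agent.H65.BM.ISO
import Pool.Agent.H65.BM.CBS
import Pool.Agent.H65.BM.SUB
import Pool.Agent.H65.BM.M1C
import Pool.Agent.H65.BM.LPD
import Pool.Agent.H65.BM.CAE
import Pool.Agent.H65.BM.CAD
import Pool.Agent.H65.BM.RIESZ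
import Pool.Agent.H65.BM.IRR2
import Pool.Agent.H65.BM.LPX
import Pool.Agent.H65.BM.Asm5
import Pool.Agent.H65.BM.EXPA
import Pool.Agent.H65.BM.EFF
import Pool.Agent.H65.BM.NEU
import Pool.Agent.H65.BM.GEN
import Pool.Agent.H65.BM.SFP
import Pool.Agent.H65.BM.LOM
import Pool.Agent.H65.BM.LPY
import Pool.Agent.H65.BM.Asm6
import Pool.Agent.H65.BM.JS
import Pool.Agent.H65.BM.JMU
import Pool.Agent.H65.BM.RAM
import Pool.Agent.H65.BM.JPM
import Pool.Agent.H65.BM.REFA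
import Pool.Agent.H65.BM.REFB
import Pool.Agent.H65.BM.REFC

/-!
# Banach-Mazur rotation problem: contractive compact perturbations of the identity

Let `E` be a separable infinite-dimensional real Banach space.

* If the isometries of `E` are transitive on the unit sphere and `‖1 - K‖ ≤ 1` for some compact
  operator `K ≠ 0`, then `E` is isometric to a Hilbert space.
* If the isometries of `E` have dense orbits on the unit sphere and `‖1 - K‖ ≤ 1` for some compact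
  operator `K` which is not quasinilpotent, then `E` is isometric to a Hilbert space.
* If moreover the dual of `E` is separable, it suffices that `‖1 - K‖ ≤ 1` for some operator `K ≠ 0`
  which is nuclear or whose approximation numbers are `O(n ^ (-s))` for some `s > 0`. If `E` is not a
  Hilbert space, there is even a uniform lower bound for `(‖1 - K‖ - 1) / ‖K‖` on such operators.
-/

set_option autoImplicit false

namespace Pool.Agent.Results.MP_cc72b1_an.SeparableTransitive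

open Filter Topology

/-- `E` is linearly isometric to a Hilbert space -/
def IsHilbert (E : Type) [NormedAddCommGroup E] [NormedSpace ℝ E] : Prop :=
  ∃ (H : Type) (_ : NormedAddCommGroup H) (_ : InnerProductSpace ℝ H) (_ : CompleteSpace H),
    Nonempty (E ≃ₗᵢ[ℝ] H)

/-- `F` is an operator of rank at most `n` -/
def RankLE {E : Type} [NormedAddCommGroup E] [NormedSpace ℝ E] (F : E →L[ℝ] E) (n : ℕ) : Prop :=
  FiniteDimensional ℝ (LinearMap.range (F : E →ₗ[ℝ] E)) ∧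
    Module.finrank ℝ (LinearMap.range (F : E →ₗ[ℝ] E)) ≤ n

/-- `K` is nuclear and its nuclear norm is at most `P` -/
def NuclearLE {E : Type} [NormedAddCommGroup E] [NormedSpace ℝ E] (K : E →L[ℝ] E) (P : ℝ) : Prop :=
  ∃ (f : ℕ → E →L[ℝ] ℝ) (e : ℕ → E), Summable (fun i => ‖f i‖ * ‖e i‖) ∧
    ∑' i, ‖f i‖ * ‖e i‖ ≤ P ∧ ∀ y, HasSum (fun i => f i y • e i) (K y)

/-- the stubs are proved -/
theorem stubs : Pool.Agent.H65.BM.Stubs3 where
  j := Pool.Agent.H65.BM.j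
  ops := Pool.Agent.H65.BM.ops
  cis := Pool.Agent.H65.BM.cis
  t1 := Pool.Agent.H65.BM.t1 Pool.Agent.H65.BM.u
  t2 := Pool.Agent.H65.BM.t2
  cot := Pool.Agent.H65.BM.cot
  null := Pool.Agent.H65.BM.null
  pos := Pool.Agent.H65.BM.pos
  eq := Pool.Agent.H65.BM.eq
  walk := Pool.Agent.H65.BM.walk
  m1 := Pool.Agent.H65.BM.m1 Pool.Agent.H65.BM.u
  m2 := Pool.Agent.H65.BM.m2
  dat := Pool.Agent.H65.BM.dat
  dus := Pool.Agent.H65.BM.dus
  duc := Pool.Agent.H65.BM.duc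
  dks := Pool.Agent.H65.BM.dks

/-- the stubs of the second wave are proved -/
theorem stubs2 : Pool.Agent.H65.BM.Stubs2 where
  fre := Pool.Agent.H65.BM.fre
  usz := Pool.Agent.H65.BM.usz
  gro := Pool.Agent.H65.BM.gro
  wkn := Pool.Agent.H65.BM.wkn
  self := Pool.Agent.H65.BM.self
  pow := Pool.Agent.H65.BM.pow
  ref := Pool.Agent.H65.BM.ref
  sepd := Pool.Agent.H65.BM.sepd
  dat := Pool.Agent.H65.BM.dat
  duc := Pool.Agent.H65.BM.duc

/-- the stubs of the fourth wave are proved -/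
theorem stubs4 : Pool.Agent.H65.BM.Stubs4 where
  j := Pool.Agent.H65.BM.j
  opc := Pool.Agent.H65.BM.opc
  cic := Pool.Agent.H65.BM.cic
  uc2 := Pool.Agent.H65.BM.uc2
  t1c := Pool.Agent.H65.BM.t1c
  t2 := Pool.Agent.H65.BM.t2
  cot := Pool.Agent.H65.BM.cot
  null := Pool.Agent.H65.BM.null
  null2 := Pool.Agent.H65.BM.null2
  pos2 := Pool.Agent.H65.BM.pos2
  eq := Pool.Agent.H65.BM.eq
  walk := Pool.Agent.H65.BM.walk
  dat := Pool.Agent.H65.BM.dat
  dus := Pool.Agent.H65.BM.dus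
  duc := Pool.Agent.H65.BM.duc
  cc := Pool.Agent.H65.BM.cc
  nm := Pool.Agent.H65.BM.nm
  con := Pool.Agent.H65.BM.con
  iso := Pool.Agent.H65.BM.iso
  cbs := Pool.Agent.H65.BM.cbs
  sub := Pool.Agent.H65.BM.sub
  m1c := Pool.Agent.H65.BM.m1c
  lpd := Pool.Agent.H65.BM.lpd
  cae := Pool.Agent.H65.BM.cae
  cad := Pool.Agent.H65.BM.cad
  riesz := Pool.Agent.H65.BM.riesz
  irr2 := Pool.Agent.H65.BM.irr2
  lpx := Pool.Agent.H65.BM.lpx

/-- a reflection -/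
theorem conv_iso {E : Type} [NormedAddCommGroup E] [NormedSpace ℝ E] {e₀ : E} (hne0 : e₀ ≠ 0) {H' : Type}
    [NormedAddCommGroup H'] [InnerProductSpace ℝ H'] [CompleteSpace H'] (Θ : E ≃ₗᵢ[ℝ] H') :
    ∃ T : E ≃ₗᵢ[ℝ] E, (∃ x, T x ≠ x) ∧ IsCompactOperator (fun x => x - T x) := by
  refine ⟨(Θ.trans (ℝ ∙ Θ e₀)ᗮ.reflection).trans Θ.symm, ⟨e₀, ?_⟩, ?_⟩
  · show Θ.symm ((ℝ ∙ Θ e₀)ᗮ.reflection (Θ e₀)) ≠ e₀
    rw [Submodule.reflection_orthogonal_apply, Submodule.reflection_mem_subspace_eq_self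
      (Submodule.mem_span_singleton_self _), map_neg, Θ.symm_apply_apply]
    intro h
    apply hne0
    have h2 : (2 : ℝ) • e₀ = 0 := by
      rw [two_smul]
      nth_rewrite 1 [← h]
      exact neg_add_cancel e₀
    exact (smul_eq_zero.1 h2).resolve_left two_ne_zero
  · have h1 : (fun x => x - ((Θ.trans (ℝ ∙ Θ e₀)ᗮ.reflection).trans Θ.symm) x) =
        fun x => (2 : ℝ) • Θ.symm ((ℝ ∙ Θ e₀).subtypeL
          ((ℝ ∙ Θ e₀).orthogonalProjectionOnto (Θ x))) := by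
      funext x
      show x - Θ.symm ((ℝ ∙ Θ e₀)ᗮ.reflection (Θ x)) = _
      rw [Submodule.reflection_orthogonal_apply, Submodule.reflection_apply, neg_sub, map_sub,
        Θ.symm_apply_apply, sub_sub_cancel, two_smul, two_smul, map_add]
      rfl
    rw [h1]
    have h2 : IsCompactOperator ((ℝ ∙ Θ e₀).orthogonalProjectionOnto) :=
      isCompactOperator_of_locallyCompactSpace_dom _
    have h3 := (h2.comp_clm (Θ.toContinuousLinearEquiv : E →L[ℝ] H')).clm_comp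
      ((2 : ℝ) • ((Θ.symm.toContinuousLinearEquiv : H' →L[ℝ] E).comp (ℝ ∙ Θ e₀).subtypeL))
    exact h3

/-- the stubs of the fifth wave are proved -/
theorem stubs5 : Pool.Agent.H65.BM.Stubs5 where
  eff := Pool.Agent.H65.BM.eff
  neu := Pool.Agent.H65.BM.neu
  gen := Pool.Agent.H65.BM.gen
  sfp := Pool.Agent.H65.BM.sfp
  lom := Pool.Agent.H65.BM.lom
  lpy := Pool.Agent.H65.BM.lpy

/-- the part on almost transitive spaces -/
theorem almost_transitive :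
    ∀ (E : Type) [NormedAddCommGroup E] [NormedSpace ℝ E] [CompleteSpace E]
      [TopologicalSpace.SeparableSpace (E →L[ℝ] ℝ)],
      ¬ FiniteDimensional ℝ E →
      (∀ x y : E, ‖x‖ = 1 → ‖y‖ = 1 → ∀ ε : ℝ, 0 < ε → ∃ T : E ≃ₗᵢ[ℝ] E, ‖T x - y‖ < ε) →
      List.TFAE [
        -- `E` is a Hilbert space
        IsHilbert E,
        -- a surjective isometry different from the identity which is a compact perturbation of it
        ∃ T : E ≃ₗᵢ[ℝ] E, (∃ x, T x ≠ x) ∧ IsCompactOperator (fun x => x - T x),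
        -- a contractive perturbation by a compact operator which is not quasinilpotent
        ∃ K : E →L[ℝ] E, IsCompactOperator K ∧
          ¬ Tendsto (fun n : ℕ => ‖K ^ n‖ ^ (1 / (n : ℝ))) atTop (𝓝 0) ∧
          ‖ContinuousLinearMap.id ℝ E - K‖ ≤ 1,
        -- a contractive nuclear perturbation of the identity
        ∃ K : E →L[ℝ] E, K ≠ 0 ∧ (∃ P : ℝ, NuclearLE K P) ∧
          ‖ContinuousLinearMap.id ℝ E - K‖ ≤ 1,
        -- a contractive perturbation with polynomially decreasing approximation numbers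
        ∃ K : E →L[ℝ] E, K ≠ 0 ∧ (∃ C s : ℝ, 0 < s ∧ ∀ n : ℕ, 1 ≤ n → ∃ F : E →L[ℝ] E,
          RankLE F n ∧ ‖K - F‖ ≤ C * (n : ℝ) ^ (-s)) ∧ ‖ContinuousLinearMap.id ℝ E - K‖ ≤ 1,
        -- no uniform lower bound for such operators
        ∃ C s : ℝ, 0 < s ∧ ∀ c : ℝ, 0 < c → ∃ K : E →L[ℝ] E,
          (∀ n : ℕ, 1 ≤ n → ∃ F : E →L[ℝ] E, RankLE F n ∧ ‖K - F‖ ≤ C * ‖K‖ * (n : ℝ) ^ (-s)) ∧
          ‖ContinuousLinearMap.id ℝ E - K‖ < 1 + c * ‖K‖,
        -- no uniform lower bound for operators which are approximated by nuclear ones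
        ∃ P s : ℝ, 0 < s ∧ ∀ c : ℝ, 0 < c → ∃ K : E →L[ℝ] E,
          (∀ l : ℝ, 1 ≤ l → ∃ F : E →L[ℝ] E,
            NuclearLE F (l * ‖K‖) ∧ ‖K - F‖ ≤ P * ‖K‖ * l ^ (-s)) ∧
          ‖ContinuousLinearMap.id ℝ E - K‖ < 1 + c * ‖K‖,
        -- a compact operator which is not quasinilpotent such that `1 + K` decreases no norm
        ∃ K : E →L[ℝ] E, IsCompactOperator K ∧
          ¬ Tendsto (fun n : ℕ => ‖K ^ n‖ ^ (1 / (n : ℝ))) atTop (𝓝 0) ∧ ∀ x, ‖x‖ ≤ ‖x + K x‖,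
        -- a nuclear operator `K ≠ 0` such that `1 + K` decreases no norm
        ∃ K : E →L[ℝ] E, K ≠ 0 ∧ (∃ P : ℝ, NuclearLE K P) ∧ ∀ x, ‖x‖ ≤ ‖x + K x‖] := by
  intro E _ _ _ _ hinf hA
  have hnt : Nontrivial E := by
    by_contra h
    rw [not_nontrivial_iff_subsingleton] at h
    exact hinf inferInstance
  obtain ⟨e₀, he₀⟩ : ∃ e : E, ‖e‖ = 1 := exists_norm_eq E zero_le_one
  have hid : ‖ContinuousLinearMap.id ℝ E‖ = 1 := ContinuousLinearMap.norm_id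
  have hsE : TopologicalSpace.SeparableSpace E := Pool.Agent.H65.BM.sepd E
  obtain ⟨hUS, hUC⟩ := Pool.Agent.H65.BM.good stubs2 E hA
  -- compact operators
  have main : ∀ K : E →L[ℝ] E, IsCompactOperator K → (∀ y, ‖y - K y‖ ≤ ‖y‖) →
      (∃ (x : E) (a b : ℝ), x ≠ 0 ∧ b ≠ 0 ∧ K (K x) + a • K x + b • x = 0) → IsHilbert E := by
    intro K hKc hK hx
    exact ⟨E, inferInstance,
      InnerProductSpace.ofNorm ℝ (Pool.Agent.H65.BM.mainC stubs4 E hA hinf hUS hUC hKc hK hx),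
      inferInstance, ⟨LinearIsometryEquiv.refl ℝ E⟩⟩
  tfae_have 3 → 1 := by
    rintro ⟨K, hKc, hq, hK⟩
    refine main K hKc (fun y => ?_) (Pool.Agent.H65.BM.qnil hKc hq)
    calc ‖y - K y‖ = ‖(ContinuousLinearMap.id ℝ E - K) y‖ := rfl
      _ ≤ ‖ContinuousLinearMap.id ℝ E - K‖ * ‖y‖ := ContinuousLinearMap.le_opNorm _ _
      _ ≤ 1 * ‖y‖ := by gcongr
      _ = ‖y‖ := one_mul _
  tfae_have 2 → 1 := by
    rintro ⟨T, hT, hc⟩
    obtain ⟨K, hKc, hK, hx⟩ := Pool.Agent.H65.BM.iso_qnil T hT hc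
    exact main K hKc hK hx
  tfae_have 7 → 1 := by
    rintro ⟨P, s, hs, hP⟩
    have hKS : Pool.Agent.H65.BM.KS E :=
      Pool.Agent.H65.BM.ks_of_appN Pool.Agent.H65.BM.normks hs hP hid.ge
    exact ⟨E, inferInstance,
      InnerProductSpace.ofNorm ℝ (Pool.Agent.H65.BM.mainS stubs E hA hinf hUS hUC hKS),
      inferInstance, ⟨LinearIsometryEquiv.refl ℝ E⟩⟩
  tfae_have 6 → 7 := by
    rintro ⟨C, s, hs, h⟩
    refine ⟨(|C| + 1) * (2 * (|C| + 1)) ^ s, s, hs, fun c hc => ?_⟩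
    obtain ⟨K, hK, hlt⟩ := h c hc
    refine ⟨K, ?_, hlt⟩
    refine Pool.Agent.H65.BM.appN_of_appR Pool.Agent.H65.BM.auer1 (abs_nonneg C) hs
      fun n hn => ?_
    obtain ⟨F, ⟨h1, h2⟩, h3⟩ := hK n hn
    refine ⟨F, h1, h2, h3.trans ?_⟩
    have hn0 : (0 : ℝ) ≤ (n : ℝ) ^ (-s) := Real.rpow_nonneg (Nat.cast_nonneg n) _
    gcongr
    exact le_abs_self C
  tfae_have 5 → 6 := by
    rintro ⟨K, hK0, ⟨C, s, hs, h⟩, hK⟩
    have hK1 : 0 < ‖K‖ := norm_pos_iff.2 hK0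
    refine ⟨C / ‖K‖, s, hs, fun c hc => ⟨K, fun n hn => ?_, ?_⟩⟩
    · obtain ⟨F, h1, h2⟩ := h n hn
      refine ⟨F, h1, ?_⟩
      rw [div_mul_cancel₀ _ hK1.ne']
      exact h2
    · have : 0 < c * ‖K‖ := by positivity
      linarith
  tfae_have 4 → 7 := by
    rintro ⟨K, hK0, ⟨P, hP⟩, hK⟩
    have hK1 : 0 < ‖K‖ := norm_pos_iff.2 hK0
    refine ⟨(|P / ‖K‖| + 1) ^ (1 : ℝ), 1, one_pos, fun c hc => ⟨K, ?_, ?_⟩⟩
    · refine Pool.Agent.H65.BM.appN_of_nuclear (P := P / ‖K‖) one_pos ?_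
      rw [div_mul_cancel₀ _ hK1.ne']
      exact hP
    · have : 0 < c * ‖K‖ := by positivity
      linarith
  -- the converse: the orthogonal projection onto a hyperplane
  have conv : IsHilbert E → ∃ f : StrongDual ℝ E, f e₀ = 1 ∧ ∀ x, ‖x - f x • e₀‖ ≤ ‖x‖ := by
    rintro ⟨H', _, _, _, ⟨Θ⟩⟩
    exact N314.OP.hilbert_proj Θ he₀
  have hne0 : e₀ ≠ 0 := by
    intro h
    rw [h, norm_zero] at he₀
    exact zero_ne_one he₀
  have conv2 : IsHilbert E → ∃ f : StrongDual ℝ E, (f.smulRight e₀ : E →L[ℝ] E) ≠ 0 ∧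
      ‖ContinuousLinearMap.id ℝ E - f.smulRight e₀‖ ≤ 1 := by
    intro h
    obtain ⟨f, h1, hle⟩ := conv h
    refine ⟨f, ?_, ?_⟩
    · intro h0
      have h2 : f.smulRight e₀ e₀ = e₀ := by
        rw [ContinuousLinearMap.smulRight_apply, h1, one_smul]
      rw [h0] at h2
      exact hne0 h2.symm
    · refine ContinuousLinearMap.opNorm_le_bound _ zero_le_one fun x => ?_
      rw [one_mul]
      exact hle x
  have hcomp : ∀ f : StrongDual ℝ E, IsCompactOperator (f.smulRight e₀ : E →L[ℝ] E) := by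
    intro f
    have h1 : IsCompactOperator (f : E → ℝ) := isCompactOperator_of_locallyCompactSpace_dom f
    exact h1.clm_comp ((ContinuousLinearMap.id ℝ ℝ).smulRight e₀)
  tfae_have 1 → 3 := by
    intro h
    obtain ⟨f, h1, hle⟩ := conv h
    refine ⟨f.smulRight e₀, hcomp f, ?_, ?_⟩
    · have hid2 : ∀ x, (f.smulRight e₀ : E →L[ℝ] E) x = f x • e₀ := fun x => rfl
      have hpow : ∀ n : ℕ, 1 ≤ n → (f.smulRight e₀ : E →L[ℝ] E) ^ n = f.smulRight e₀ := by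
        intro n hn
        induction n, hn using Nat.le_induction with
        | base => rw [pow_one]
        | succ n hn ih =>
          rw [pow_succ, ih]
          ext x
          show (f.smulRight e₀ : E →L[ℝ] E) ((f.smulRight e₀ : E →L[ℝ] E) x) =
            (f.smulRight e₀ : E →L[ℝ] E) x
          rw [hid2, hid2, map_smul, h1, smul_eq_mul, mul_one]
      have hn1 : 1 ≤ ‖(f.smulRight e₀ : E →L[ℝ] E)‖ := by
        have := (f.smulRight e₀ : E →L[ℝ] E).le_opNorm e₀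
        rwa [hid2, h1, one_smul, he₀, mul_one] at this
      intro ht
      have h2 := ge_of_tendsto ht (b := (1 : ℝ)) ((eventually_ge_atTop 1).mono fun n hn => by
        rw [hpow n hn]
        exact Real.one_le_rpow hn1 (by positivity))
      linarith
    · refine ContinuousLinearMap.opNorm_le_bound _ zero_le_one fun x => ?_
      rw [one_mul]
      exact hle x
  tfae_have 1 → 2 := by
    rintro ⟨H', _, _, _, ⟨Θ⟩⟩
    exact conv_iso hne0 Θ
  tfae_have 1 → 4 := by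
    intro h
    obtain ⟨f, h1, h2⟩ := conv2 h
    refine ⟨f.smulRight e₀, h1, ⟨∑ i : Fin 1, ‖f‖ * ‖e₀‖, ?_⟩, h2⟩
    have h2 := Pool.Agent.H65.BM.nuclear_opr (n := 1) (fun _ => f) (fun _ => e₀)
    have h3 : Pool.Agent.H65.BM.opr (n := 1) (fun _ => f) (fun _ => e₀) = f.smulRight e₀ := by
      simp [Pool.Agent.H65.BM.opr]
    rw [h3] at h2
    exact h2
  tfae_have 1 → 5 := by
    intro h
    obtain ⟨f, h1, h2⟩ := conv2 h
    refine ⟨f.smulRight e₀, h1, ⟨0, 1, one_pos, fun n hn => ⟨f.smulRight e₀, ?_, ?_⟩⟩, h2⟩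
    · have h4 : LinearMap.range ((f.smulRight e₀ : E →L[ℝ] E) : E →ₗ[ℝ] E) ≤
          Submodule.span ℝ {e₀} := by
        rintro _ ⟨x, rfl⟩
        rw [Submodule.mem_span_singleton]
        exact ⟨f x, rfl⟩
      refine ⟨Submodule.finiteDimensional_of_le h4, (Submodule.finrank_mono h4).trans ?_⟩
      exact (finrank_span_singleton hne0).le.trans hn
    · rw [sub_self, norm_zero, zero_mul]
  have hcon : ∀ K : E →L[ℝ] E, ‖ContinuousLinearMap.id ℝ E - K‖ ≤ 1 → ∀ x, ‖x‖ ≤ ‖x + K x‖ := by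
    intro K hK
    refine Pool.Agent.H65.BM.expand_of_acc (Pool.Agent.H65.BM.acc_of_contr fun y => ?_)
    calc ‖y - K y‖ = ‖(ContinuousLinearMap.id ℝ E - K) y‖ := rfl
      _ ≤ ‖ContinuousLinearMap.id ℝ E - K‖ * ‖y‖ := ContinuousLinearMap.le_opNorm _ _
      _ ≤ 1 * ‖y‖ := by gcongr
      _ = ‖y‖ := one_mul _
  have hcon2 : ∀ K : E →L[ℝ] E, (∀ y, ‖y - K y‖ ≤ ‖y‖) → ‖ContinuousLinearMap.id ℝ E - K‖ ≤ 1 := by
    intro K hK
    refine ContinuousLinearMap.opNorm_le_bound _ zero_le_one fun y => ?_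
    rw [one_mul]
    exact hK y
  tfae_have 3 → 8 := by
    rintro ⟨K, hKc, hq, hK⟩
    exact ⟨K, hKc, hq, hcon K hK⟩
  tfae_have 8 → 3 := by
    rintro ⟨K, hKc, hq, hK⟩
    obtain ⟨R, hR1, hR2, hRc, hR⟩ := Pool.Agent.H65.BM.expand hKc hK
    exact ⟨R * K, hRc, Pool.Agent.H65.BM.expand_qn hR1 hR2 hq, hcon2 _ hR⟩
  tfae_have 4 → 9 := by
    rintro ⟨K, hK0, hP, hK⟩
    exact ⟨K, hK0, hP, hcon K hK⟩
  tfae_have 9 → 4 := by
    rintro ⟨K, hK0, ⟨P, f, e, hs, -, h⟩, hK⟩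
    obtain ⟨R, hR1, hR2, hRc, hR⟩ := Pool.Agent.H65.BM.expand
      (Pool.Agent.H65.BM.nuclear_compact hs h) hK
    obtain ⟨h1, h2⟩ := Pool.Agent.H65.BM.nuclear_mul R hs h
    exact ⟨R * K, Pool.Agent.H65.BM.expand_ne hR1 hK0, ⟨_, f, fun i => R (e i), h1, le_rfl, h2⟩,
      hcon2 _ hR⟩
  tfae_finish

/-- the part on transitive spaces -/
theorem transitive :
    ∀ (E : Type) [NormedAddCommGroup E] [NormedSpace ℝ E] [CompleteSpace E]
      [TopologicalSpace.SeparableSpace (E →L[ℝ] ℝ)],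
      ¬ FiniteDimensional ℝ E →
      (∀ x y : E, ‖x‖ = 1 → ‖y‖ = 1 → ∃ T : E ≃ₗᵢ[ℝ] E, T x = y) →
      List.TFAE [
        -- `E` is a Hilbert space
        IsHilbert E,
        -- a contractive compact perturbation of the identity
        ∃ K : E →L[ℝ] E, K ≠ 0 ∧ IsCompactOperator K ∧ ‖ContinuousLinearMap.id ℝ E - K‖ ≤ 1,
        -- a compact operator whose numerical range is contained in `[0, ∞)`
        ∃ K : E →L[ℝ] E, K ≠ 0 ∧ IsCompactOperator K ∧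
          ∀ (x : E) (f : E →L[ℝ] ℝ), ‖x‖ = 1 → ‖f‖ = 1 → f x = 1 → 0 ≤ f (K x),
        -- a compact operator such that `1 + K` decreases no norm
        ∃ K : E →L[ℝ] E, K ≠ 0 ∧ IsCompactOperator K ∧ ∀ x, ‖x‖ ≤ ‖x + K x‖] := by
  intro E _ _ _ _ hinf hT
  have hA : ∀ x y : E, ‖x‖ = 1 → ‖y‖ = 1 → ∀ ε : ℝ, 0 < ε → ∃ T : E ≃ₗᵢ[ℝ] E, ‖T x - y‖ < ε := by
    intro x y hx hy ε hε
    obtain ⟨T, rfl⟩ := hT x y hx hy
    exact ⟨T, by rwa [sub_self, norm_zero]⟩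
  tfae_have 1 → 2 := by
    intro h
    obtain ⟨K, hKc, hq, hK⟩ := ((almost_transitive E hinf hA).out 0 2).1 h
    refine ⟨K, ?_, hKc, hK⟩
    rintro rfl
    apply hq
    refine tendsto_const_nhds.congr' ((eventually_ge_atTop 1).mono fun n hn => ?_)
    have h1 : (0 : E →L[ℝ] E) ^ n = 0 := zero_pow (by omega)
    have h2 : (0 : ℝ) < 1 / (n : ℝ) := by
      have : (0 : ℝ) < n := by exact_mod_cast hn
      positivity
    show (0 : ℝ) = ‖(0 : E →L[ℝ] E) ^ n‖ ^ (1 / (n : ℝ))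
    rw [h1, norm_zero, Real.zero_rpow h2.ne']
  tfae_have 2 → 3 := by
    rintro ⟨K, hK0, hKc, hK⟩
    refine ⟨K, hK0, hKc, Pool.Agent.H65.BM.acc_of_contr fun y => ?_⟩
    calc ‖y - K y‖ = ‖(ContinuousLinearMap.id ℝ E - K) y‖ := rfl
      _ ≤ ‖ContinuousLinearMap.id ℝ E - K‖ * ‖y‖ := ContinuousLinearMap.le_opNorm _ _
      _ ≤ 1 * ‖y‖ := by gcongr
      _ = ‖y‖ := one_mul _
  tfae_have 3 → 4 := by
    rintro ⟨K, hK0, hKc, hK⟩
    exact ⟨K, hK0, hKc, Pool.Agent.H65.BM.expand_of_acc hK⟩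
  tfae_have 4 → 1 := by
    rintro ⟨K, hK0, hKc, hK⟩
    have hnt : Nontrivial E := by
      by_contra h
      rw [not_nontrivial_iff_subsingleton] at h
      exact hinf inferInstance
    have hsE : TopologicalSpace.SeparableSpace E := Pool.Agent.H65.BM.sepd E
    obtain ⟨hUS, hUC⟩ := Pool.Agent.H65.BM.good stubs2 E hA
    obtain ⟨R, hR1, hR2, hRc, hR⟩ := Pool.Agent.H65.BM.expand hKc hK
    exact ⟨E, inferInstance,
      InnerProductSpace.ofNorm ℝ (Pool.Agent.H65.BM.mainT stubs4 stubs5 E hA hT hinf hUS hUC hRc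
        hR (Pool.Agent.H65.BM.expand_ne hR1 hK0)), inferInstance, ⟨LinearIsometryEquiv.refl ℝ E⟩⟩
  tfae_finish

/-- the stubs of the sixth wave are proved -/
theorem stubs6 : Pool.Agent.H65.BM.Stubs6 where
  js := Pool.Agent.H65.BM.js
  jmu := Pool.Agent.H65.BM.jmu
  ram := Pool.Agent.H65.BM.ram
  jpm := Pool.Agent.H65.BM.jpm
  refa := Pool.Agent.H65.BM.refa
  refb := Pool.Agent.H65.BM.refb
  refc := Pool.Agent.H65.BM.refc

/-- spaces with a compact operator which satisfies (LP) -/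
theorem main6 (E : Type) [NormedAddCommGroup E] [NormedSpace ℝ E] [CompleteSpace E]
    [TopologicalSpace.SeparableSpace E] (hinf : ¬ FiniteDimensional ℝ E)
    (hA : ∀ x y : E, ‖x‖ = 1 → ‖y‖ = 1 → ∀ ε : ℝ, 0 < ε → ∃ T : E ≃ₗᵢ[ℝ] E, ‖T x - y‖ < ε)
    {K : E →L[ℝ] E} (hK0 : K ≠ 0) (hKc : IsCompactOperator K) (hK : ∀ y, ‖y - K y‖ ≤ ‖y‖)
    (hLP : Pool.Agent.H65.BM.LP E K) : IsHilbert E := by
  have hnt : Nontrivial E := by
    by_contra h
    rw [not_nontrivial_iff_subsingleton] at h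
    exact hinf inferInstance
  have hr := Pool.Agent.H65.BM.reflK stubs6 E hA hKc hK hK0 hLP
  have hs : TopologicalSpace.SeparableSpace (E →L[ℝ] ℝ) := Pool.Agent.H65.BM.sepdual E hr
  obtain ⟨hUS, hUC⟩ := Pool.Agent.H65.BM.good stubs2 E hA
  exact ⟨E, inferInstance,
    InnerProductSpace.ofNorm ℝ (Pool.Agent.H65.BM.mainL stubs4 E hA hinf hUS hUC hKc hK hK0 hLP),
    inferInstance, ⟨LinearIsometryEquiv.refl ℝ E⟩⟩

lemma contr_of {E : Type} [NormedAddCommGroup E] [NormedSpace ℝ E] {K : E →L[ℝ] E}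
    (hK : ‖ContinuousLinearMap.id ℝ E - K‖ ≤ 1) (y : E) : ‖y - K y‖ ≤ ‖y‖ := by
  calc ‖y - K y‖ = ‖(ContinuousLinearMap.id ℝ E - K) y‖ := rfl
    _ ≤ ‖ContinuousLinearMap.id ℝ E - K‖ * ‖y‖ := ContinuousLinearMap.le_opNorm _ _
    _ ≤ 1 * ‖y‖ := by gcongr
    _ = ‖y‖ := one_mul _

lemma of_contr {E : Type} [NormedAddCommGroup E] [NormedSpace ℝ E] {K : E →L[ℝ] E}
    (hK : ∀ y, ‖y - K y‖ ≤ ‖y‖) : ‖ContinuousLinearMap.id ℝ E - K‖ ≤ 1 := by
  refine ContinuousLinearMap.opNorm_le_bound _ zero_le_one fun y => ?_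
  rw [one_mul]
  exact hK y

/-- a projection onto a line -/
theorem conv_proj {E : Type} [NormedAddCommGroup E] [NormedSpace ℝ E] {e₀ : E} (he₀ : ‖e₀‖ = 1)
    (h : IsHilbert E) : ∃ K : E →L[ℝ] E, K ≠ 0 ∧ IsCompactOperator K ∧
      ¬ Tendsto (fun n : ℕ => ‖K ^ n‖ ^ (1 / (n : ℝ))) atTop (𝓝 0) ∧
      ‖ContinuousLinearMap.id ℝ E - K‖ ≤ 1 := by
  obtain ⟨f, h1, hle⟩ : ∃ f : StrongDual ℝ E, f e₀ = 1 ∧ ∀ x, ‖x - f x • e₀‖ ≤ ‖x‖ := by
    obtain ⟨H', _, _, _, ⟨Θ⟩⟩ := h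
    exact N314.OP.hilbert_proj Θ he₀
  have hcomp : IsCompactOperator (f.smulRight e₀ : E →L[ℝ] E) := by
    have h1 : IsCompactOperator (f : E → ℝ) := isCompactOperator_of_locallyCompactSpace_dom f
    exact h1.clm_comp ((ContinuousLinearMap.id ℝ ℝ).smulRight e₀)
  have hid2 : ∀ x, (f.smulRight e₀ : E →L[ℝ] E) x = f x • e₀ := fun x => rfl
  refine ⟨f.smulRight e₀, ?_, hcomp, ?_, of_contr hle⟩
  · intro h0
    have h2 : (f.smulRight e₀ : E →L[ℝ] E) e₀ = e₀ := by rw [hid2, h1, one_smul]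
    rw [h0] at h2
    have h3 : (0 : E) = e₀ := h2
    rw [← h3, norm_zero] at he₀
    exact zero_ne_one he₀
  · have hpow : ∀ n : ℕ, 1 ≤ n → (f.smulRight e₀ : E →L[ℝ] E) ^ n = f.smulRight e₀ := by
      intro n hn
      induction n, hn using Nat.le_induction with
      | base => rw [pow_one]
      | succ n hn ih =>
        rw [pow_succ, ih]
        ext x
        show (f.smulRight e₀ : E →L[ℝ] E) ((f.smulRight e₀ : E →L[ℝ] E) x) =
          (f.smulRight e₀ : E →L[ℝ] E) x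
        rw [hid2, hid2, map_smul, h1, smul_eq_mul, mul_one]
    have hn1 : 1 ≤ ‖(f.smulRight e₀ : E →L[ℝ] E)‖ := by
      have := (f.smulRight e₀ : E →L[ℝ] E).le_opNorm e₀
      rwa [hid2, h1, one_smul, he₀, mul_one] at this
    intro ht
    have h2 := ge_of_tendsto ht (b := (1 : ℝ)) ((eventually_ge_atTop 1).mono fun n hn => by
      rw [hpow n hn]
      exact Real.one_le_rpow hn1 (by positivity))
    linarith

theorem result :
    ∀ (E : Type) [NormedAddCommGroup E] [NormedSpace ℝ E] [CompleteSpace E]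
      [TopologicalSpace.SeparableSpace E],
      ¬ FiniteDimensional ℝ E →
      -- transitive spaces
      ((∀ x y : E, ‖x‖ = 1 → ‖y‖ = 1 → ∃ T : E ≃ₗᵢ[ℝ] E, T x = y) →
        List.TFAE [
          -- `E` is a Hilbert space
          IsHilbert E,
          -- a contractive compact perturbation of the identity
          ∃ K : E →L[ℝ] E, K ≠ 0 ∧ IsCompactOperator K ∧ ‖ContinuousLinearMap.id ℝ E - K‖ ≤ 1,
          -- a compact operator whose numerical range is contained in `[0, ∞)`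
          ∃ K : E →L[ℝ] E, K ≠ 0 ∧ IsCompactOperator K ∧
            ∀ (x : E) (f : E →L[ℝ] ℝ), ‖x‖ = 1 → ‖f‖ = 1 → f x = 1 → 0 ≤ f (K x),
          -- a compact operator such that `1 + K` decreases no norm
          ∃ K : E →L[ℝ] E, K ≠ 0 ∧ IsCompactOperator K ∧ ∀ x, ‖x‖ ≤ ‖x + K x‖]) ∧
      -- almost transitive spaces
      ((∀ x y : E, ‖x‖ = 1 → ‖y‖ = 1 → ∀ ε : ℝ, 0 < ε → ∃ T : E ≃ₗᵢ[ℝ] E, ‖T x - y‖ < ε) →
        List.TFAE [
          -- `E` is a Hilbert space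
          IsHilbert E,
          -- a contractive perturbation by a compact operator which is not quasinilpotent
          ∃ K : E →L[ℝ] E, IsCompactOperator K ∧
            ¬ Tendsto (fun n : ℕ => ‖K ^ n‖ ^ (1 / (n : ℝ))) atTop (𝓝 0) ∧
            ‖ContinuousLinearMap.id ℝ E - K‖ ≤ 1,
          -- such an operator whose numerical range is contained in `[0, ∞)`
          ∃ K : E →L[ℝ] E, IsCompactOperator K ∧
            ¬ Tendsto (fun n : ℕ => ‖K ^ n‖ ^ (1 / (n : ℝ))) atTop (𝓝 0) ∧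
            ∀ (x : E) (f : E →L[ℝ] ℝ), ‖x‖ = 1 → ‖f‖ = 1 → f x = 1 → 0 ≤ f (K x),
          -- such an operator for which `1 + K` decreases no norm
          ∃ K : E →L[ℝ] E, IsCompactOperator K ∧
            ¬ Tendsto (fun n : ℕ => ‖K ^ n‖ ^ (1 / (n : ℝ))) atTop (𝓝 0) ∧
            ∀ x, ‖x‖ ≤ ‖x + K x‖]) ∧
      -- almost transitive spaces with separable dual
      (TopologicalSpace.SeparableSpace (E →L[ℝ] ℝ) →
        (∀ x y : E, ‖x‖ = 1 → ‖y‖ = 1 → ∀ ε : ℝ, 0 < ε → ∃ T : E ≃ₗᵢ[ℝ] E, ‖T x - y‖ < ε) →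
        List.TFAE [
          -- `E` is a Hilbert space
          IsHilbert E,
          -- a contractive nuclear perturbation of the identity
          ∃ K : E →L[ℝ] E, K ≠ 0 ∧ (∃ P : ℝ, NuclearLE K P) ∧
            ‖ContinuousLinearMap.id ℝ E - K‖ ≤ 1,
          -- a nuclear operator `K ≠ 0` such that `1 + K` decreases no norm
          ∃ K : E →L[ℝ] E, K ≠ 0 ∧ (∃ P : ℝ, NuclearLE K P) ∧ ∀ x, ‖x‖ ≤ ‖x + K x‖,
          -- a contractive perturbation with polynomially decreasing approximation numbers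
          ∃ K : E →L[ℝ] E, K ≠ 0 ∧ (∃ C s : ℝ, 0 < s ∧ ∀ n : ℕ, 1 ≤ n → ∃ F : E →L[ℝ] E,
            RankLE F n ∧ ‖K - F‖ ≤ C * (n : ℝ) ^ (-s)) ∧ ‖ContinuousLinearMap.id ℝ E - K‖ ≤ 1,
          -- no uniform lower bound for such operators
          ∃ C s : ℝ, 0 < s ∧ ∀ c : ℝ, 0 < c → ∃ K : E →L[ℝ] E,
            (∀ n : ℕ, 1 ≤ n → ∃ F : E →L[ℝ] E,
              RankLE F n ∧ ‖K - F‖ ≤ C * ‖K‖ * (n : ℝ) ^ (-s)) ∧
            ‖ContinuousLinearMap.id ℝ E - K‖ < 1 + c * ‖K‖,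
          -- no uniform lower bound for operators which are approximated by nuclear ones
          ∃ P s : ℝ, 0 < s ∧ ∀ c : ℝ, 0 < c → ∃ K : E →L[ℝ] E,
            (∀ l : ℝ, 1 ≤ l → ∃ F : E →L[ℝ] E,
              NuclearLE F (l * ‖K‖) ∧ ‖K - F‖ ≤ P * ‖K‖ * l ^ (-s)) ∧
            ‖ContinuousLinearMap.id ℝ E - K‖ < 1 + c * ‖K‖]) := by
  intro E _ _ _ _ hinf
  have hnt : Nontrivial E := by
    by_contra h
    rw [not_nontrivial_iff_subsingleton] at h
    exact hinf inferInstance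
  obtain ⟨e₀, he₀⟩ : ∃ e : E, ‖e‖ = 1 := exists_norm_eq E zero_le_one
  refine ⟨fun hT => ?_, fun hA => ?_, fun hs hA => ?_⟩
  · have hA : ∀ x y : E, ‖x‖ = 1 → ‖y‖ = 1 → ∀ ε : ℝ, 0 < ε →
        ∃ T : E ≃ₗᵢ[ℝ] E, ‖T x - y‖ < ε := by
      intro x y hx hy ε hε
      obtain ⟨T, rfl⟩ := hT x y hx hy
      exact ⟨T, by rwa [sub_self, norm_zero]⟩
    tfae_have 1 → 2 := by
      intro h
      obtain ⟨K, hK0, hKc, -, hK⟩ := conv_proj he₀ h
      exact ⟨K, hK0, hKc, hK⟩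
    tfae_have 2 → 3 := by
      rintro ⟨K, hK0, hKc, hK⟩
      exact ⟨K, hK0, hKc, Pool.Agent.H65.BM.acc_of_contr (contr_of hK)⟩
    tfae_have 3 → 4 := by
      rintro ⟨K, hK0, hKc, hK⟩
      exact ⟨K, hK0, hKc, Pool.Agent.H65.BM.expand_of_acc hK⟩
    tfae_have 4 → 1 := by
      rintro ⟨K, hK0, hKc, hK⟩
      obtain ⟨R, hR1, hR2, hRc, hR⟩ := Pool.Agent.H65.BM.expand hKc hK
      have hR0 := Pool.Agent.H65.BM.expand_ne hR1 hK0
      exact main6 E hinf hA hR0 hRc hR (stubs5.lpy stubs4.riesz stubs4.irr2 E hinf hA _ hRc hR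
        (Pool.Agent.H65.BM.irrK stubs5 E hT hRc hR0))
    tfae_finish
  · have main : ∀ K : E →L[ℝ] E, IsCompactOperator K → (∀ y, ‖y - K y‖ ≤ ‖y‖) →
        (∃ (x : E) (a b : ℝ), x ≠ 0 ∧ b ≠ 0 ∧ K (K x) + a • K x + b • x = 0) → IsHilbert E := by
      intro K hKc hK hx
      have hK0 : K ≠ 0 := by
        rintro rfl
        obtain ⟨x, a, b, hx, hb, h⟩ := hx
        simp only [_root_.zero_apply, smul_zero, add_zero, zero_add, smul_eq_zero] at h
        tauto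
      exact main6 E hinf hA hK0 hKc hK (stubs4.lpx stubs4.riesz stubs4.irr2 E hinf hA K hKc hK hx)
    tfae_have 1 → 2 := by
      intro h
      obtain ⟨K, hK0, hKc, hq, hK⟩ := conv_proj he₀ h
      exact ⟨K, hKc, hq, hK⟩
    tfae_have 2 → 3 := by
      rintro ⟨K, hKc, hq, hK⟩
      exact ⟨K, hKc, hq, Pool.Agent.H65.BM.acc_of_contr (contr_of hK)⟩
    tfae_have 3 → 4 := by
      rintro ⟨K, hKc, hq, hK⟩
      exact ⟨K, hKc, hq, Pool.Agent.H65.BM.expand_of_acc hK⟩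
    tfae_have 4 → 1 := by
      rintro ⟨K, hKc, hq, hK⟩
      obtain ⟨R, hR1, hR2, hRc, hR⟩ := Pool.Agent.H65.BM.expand hKc hK
      exact main _ hRc hR (Pool.Agent.H65.BM.qnil hRc (Pool.Agent.H65.BM.expand_qn hR1 hR2 hq))
    tfae_finish
  · have h := almost_transitive E hinf hA
    tfae_have 1 ↔ 2 := h.out 0 3
    tfae_have 1 ↔ 3 := h.out 0 8
    tfae_have 1 ↔ 4 := h.out 0 4
    tfae_have 1 ↔ 5 := h.out 0 5
    tfae_have 1 ↔ 6 := h.out 0 6
    tfae_finish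

end Pool.Agent.Results.MP_cc72b1_an.SeparableTransitive
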