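import Pool.Agent.H66.SO.All

/-!
# Banach-Mazur rotation problem: mutual orthogonality

Let `E` be a separable infinite-dimensional real Banach space whose isometries act transitively on
the unit sphere. If for one unit vector `x` the vectors `y` with `x ⊥ y` and `y ⊥ x` (orthogonality
in the sense of Birkhoff) are not meagre among the unit vectors with `x ⊥ y`, or if the mutually
orthogonal pairs are not meagre among the pairs with `x ⊥ y`, or if for one unit vector `x` the
unit vectors `y` for which `x = t y + z` with mutually orthogonal `y` and `z` are not meagre in the
unit sphere, then `E` is a Hilbert space. So in a counterexample to the question mutual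
orthogonality is exceptional, and even over a single point.

Proof outline (files `Pool/Agent/H66/SO/*`). `D x` is the norming functional of `x`.

1. By the Baire category theorem and transitivity there is a pair `(x0, y0)` such that
   `D x y = 0 ↔ D y x = 0` for all `x` near `x0` and `y` near `y0` (TOPA, TOPB, TOPC, TWS).
2. If `p`, `q` near `y0` are orthogonal to the same `x1` near `x0`, then `D (a p + b q)`, `a, b ≥ 0`,
   is a combination of `D p` and `D q` (SPN): `D` is locally a collineation.
3. Transitivity excludes degenerate cases: there is no flat piece of finite codimension in the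
   sphere, because a finite-dimensional section has extreme points (FLC), no direction is flat on an
   open set, because such directions would be the same at all points of the sphere (REG), and so
   `D` is injective where needed (NFL), and the coefficients in 2 are positive (POS).
4. The local fundamental theorem of projective geometry, in the form of a cocycle identity for the
   ratios of the coefficients (ADD) and Pexider's equation (LIN, PEX): `μ(y) D y = T y` near `y0` with a
   linear map `T` from `E` to its dual and `μ > 0`.
5. The symmetry of the second derivatives of the norm shows that `T` is symmetric (EQN, SYT), and so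
   the squared norm is a quadratic form near `y0` (QUD), by transitivity near every point, and the
   parallelogram law holds (FIN).
-/

set_option autoImplicit false

namespace Pool.Agent.Results.MP_cc72b1_an.SymmetricOrthogonality

open Pool.Agent.Lead.BR (Tr Sm Bo Orth Pairs Hilb)
open Pool.Agent.H66.SO (Dec)
open TopologicalSpace

/-- **Mutual orthogonality in transitive spaces.** The first part: separable spaces, meagre sets.
The second part: spaces of any density with unique norming functionals (`Sm`), symmetry of the
orthogonality near one orthogonal pair `(x0, y0)`. -/
theorem result :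
    (∀ (E : Type) [NormedAddCommGroup E] [NormedSpace ℝ E] [CompleteSpace E] [SeparableSpace E],
      ¬ FiniteDimensional ℝ E → Tr E →
      List.TFAE [
        Hilb E,
        ∃ x : E, ‖x‖ = 1 ∧ ¬ IsMeagre {y : Orth x | Bo (y : E) x},
        ¬ IsMeagre {q : Pairs E | Bo q.1.2 q.1.1},
        ∃ x : E, ‖x‖ = 1 ∧ ¬ IsMeagre {y : Metric.sphere (0 : E) 1 | Dec x (y : E)}]) ∧
    ∀ (E : Type) [NormedAddCommGroup E] [NormedSpace ℝ E] [CompleteSpace E],
      ¬ FiniteDimensional ℝ E → Tr E → Sm E → ∀ (x0 y0 : E) (r : ℝ), ‖x0‖ = 1 → ‖y0‖ = 1 →
      Bo x0 y0 → 0 < r →
      (∀ x y : E, ‖x‖ = 1 → ‖y‖ = 1 → ‖x - x0‖ < r → ‖y - y0‖ < r → Bo x y → Bo y x) → Hilb E := by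
  refine ⟨?_, ?_⟩
  · intro E _ _ _ _ hinf hTr
    exact Pool.Agent.H66.SO.main_all E hinf hTr
  · intro E _ _ _ hinf hTr hSm x0 y0 r hx hy hxy hr h
    exact Pool.Agent.H66.SO.main_local E hinf hTr hSm x0 y0 r hx hy hxy hr h

end Pool.Agent.Results.MP_cc72b1_an.SymmetricOrthogonality
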