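import Pool.Agent.Lead.BR.Asm3

/-!
# Banach-Mazur rotation problem: the isometry types of the planes through a point

Let `E` be a separable Banach space of dimension at least two whose isometries act transitively on
the unit sphere. If for one vector `x ≠ 0` one isometry type of planes `span (x, y)` occurs for a
nonmeagre set of vectors `y` (for instance if countably many types suffice for all planes through
`x`), or if one type occurs for a nonmeagre set of pairs `(x, y)`, then `E` is a Hilbert space.

Proof outline (files `Pool/Agent/Lead/BR/*`).

1. The norm is smooth (Mazur and transitivity), the norming functional depends continuously on the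
   point, and by the Baire category theorem all points near `x` are limits of images of `x` under
   isometries which nearly fix a given vector (`near_open`). The set of all `y` with the given type
   is closed, so it has interior points, and all planes near one plane `F` through `x` have the same
   type.
2. If this type is not Euclidean, the planes near `F` are images of `F` under isometries near the
   inclusion. The first variation of the norm shows that these isometries are differentiable along
   lines `v + s e`; the derivative `A` for the direction `l` satisfies
   `dN(p)[A p] = l(p) dN(p)[e]`. The quadratic vector field `- p2 A1 p + p1 A2 p` is tangent to the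
   unit circle of `F`; as a field of even degree it has a zero on it, splits off a linear factor, and
   vanishes, because otherwise `F` would have a one-parameter group of isometries. So `A p = l(p) c`,
   the vector `x` is not moved to first order, and by integration the isometries fix `x`: the pairs
   `(x, y)` themselves, not only their planes, have constant shape near one of them.
3. A nonmeagre slice of constant shape gives, again by `near_open`, a neighbourhood of pairs of
   constant shape, so the plane `F` has a transitive isometry group and is Euclidean.
4. If all planes near `F` are Euclidean, comparison of the product structures at `x` and at `y` shows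
   that the squared norm is quadratic along short lines at `x`, hence everywhere by transitivity:
   the parallelogram law.
-/

set_option autoImplicit false
set_option linter.unusedVariables false

namespace Pool.Agent.Results.MP_cc72b1_an.TypesOfPlanes

open Pool.Agent.Lead.BR TopologicalSpace

theorem result :
    ∀ (E : Type) [NormedAddCommGroup E] [NormedSpace ℝ E] [CompleteSpace E] [SeparableSpace E],
      1 < Module.rank ℝ E → Tr E →
      List.TFAE [
        Hilb E,
        ∃ (x : E) (N : ℝ → ℝ → ℝ), x ≠ 0 ∧ IsNorm2 N ∧
          ¬ IsMeagre {y : E | Ind x y ∧ HasType N x y},
        ∃ N : ℝ → ℝ → ℝ, IsNorm2 N ∧ ¬ IsMeagre {p : E × E | Ind p.1 p.2 ∧ HasType N p.1 p.2},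
        ∃ (x : E) (N : ℕ → ℝ → ℝ → ℝ), x ≠ 0 ∧ (∀ i, IsNorm2 (N i)) ∧
          ∀ y : E, Ind x y → ∃ i, HasType (N i) x y,
        ∃ x : E, ‖x‖ = 1 ∧ ∃ y ∈ Orth x,
          ¬ IsMeagre {z : Orth x | ∃ T : E ≃ₗᵢ[ℝ] E, T x = x ∧ T y = z},
        ∃ p ∈ Pairs E,
          ¬ IsMeagre {q : Pairs E | ∃ T : E ≃ₗᵢ[ℝ] E, T p.1 = q.1.1 ∧ T p.2 = q.1.2}] := by
  intro E _ _ _ _ hrank hTr
  exact main3 E hrank hTr

end Pool.Agent.Results.MP_cc72b1_an.TypesOfPlanes
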